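import Mathlib
import Pool.Agent.U707.PT.Stm

/-!
# Project PT, package LOG (helper61): the logarithm is a polynomial for nilpotent elements of bounded
index
-/

set_option autoImplicit false

open Polynomial

namespace Pool.Agent.U61.PT

/-- the truncated exponential series -/
noncomputable def ex (D : ℕ) : ℚ[X] := ∑ j ∈ Finset.range D, C ((j.factorial : ℚ)⁻¹) * X ^ j

/-- `g` is a polynomial in `ex D` modulo `X ^ D` -/
def P (D : ℕ) (g : ℚ[X]) : Prop := ∃ L : ℚ[X], X ^ D ∣ L.comp (ex D) - g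

lemma P.add {D : ℕ} {g h : ℚ[X]} (hg : P D g) (hh : P D h) : P D (g + h) := by
  obtain ⟨L, hL⟩ := hg
  obtain ⟨M, hM⟩ := hh
  refine ⟨L + M, ?_⟩
  rw [add_comp]
  have e : L.comp (ex D) + M.comp (ex D) - (g + h) =
    (L.comp (ex D) - g) + (M.comp (ex D) - h) := by ring
  rw [e]
  exact dvd_add hL hM

lemma P.smul {D : ℕ} {g : ℚ[X]} (hg : P D g) (a : ℚ) : P D (C a * g) := by
  obtain ⟨L, hL⟩ := hg
  refine ⟨C a * L, ?_⟩
  rw [mul_comp, C_comp, ← mul_sub]
  exact hL.mul_left _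

lemma P.sub {D : ℕ} {g h : ℚ[X]} (hg : P D g) (hh : P D h) : P D (g - h) := by
  have h1 := hg.add (hh.smul (-1))
  have e : g + C (-1) * h = g - h := by
    rw [C_neg, C_1]
    ring
  rwa [e] at h1

lemma P.pw (D k : ℕ) : P D ((ex D - 1) ^ k) := by
  refine ⟨(X - 1) ^ k, ?_⟩
  rw [pow_comp, sub_comp, X_comp, one_comp, sub_self]
  exact dvd_zero _

lemma ex_eq (m : ℕ) : ∃ u : ℚ[X], ex (m + 2) = 1 + X + X ^ 2 * u := by
  refine ⟨∑ j ∈ Finset.range m, C (((j + 2).factorial : ℚ)⁻¹) * X ^ j, ?_⟩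
  unfold ex
  rw [Finset.sum_range_succ', Finset.sum_range_succ', Finset.mul_sum]
  have e : ∀ j ∈ Finset.range m, (X : ℚ[X]) ^ 2 * (C (((j + 2).factorial : ℚ)⁻¹) * X ^ j) =
      C (((j + 1 + 1).factorial : ℚ)⁻¹) * X ^ (j + 1 + 1) := by
    intro j _
    ring
  rw [Finset.sum_congr rfl e]
  norm_num
  ring

theorem P.all (D : ℕ) : ∀ j k : ℕ, 1 ≤ k → D ≤ k + j → ∀ g : ℚ[X], P D (X ^ k * g) := by
  intro j
  induction j with
  | zero =>
    intro k _ hD g
    refine ⟨0, ?_⟩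
    rw [zero_comp, zero_sub, dvd_neg]
    exact Dvd.dvd.mul_right (pow_dvd_pow X hD) g
  | succ j ih =>
    intro k hk hD g
    by_cases hkD : D ≤ k
    · refine ⟨0, ?_⟩
      rw [zero_comp, zero_sub, dvd_neg]
      exact Dvd.dvd.mul_right (pow_dvd_pow X hkD) g
    · obtain ⟨m, rfl⟩ : ∃ m, D = m + 2 := ⟨D - 2, by omega⟩
      obtain ⟨u, hu⟩ := ex_eq m
      have ih' := ih (k + 1) (by omega) (by omega)
      have h1 : ex (m + 2) - 1 = X * (1 + X * u) := by rw [hu]; ring
      obtain ⟨h, hh⟩ : (X : ℚ[X]) ∣ (1 + X * u) ^ k - 1 := by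
        have h2 := sub_dvd_pow_sub_pow (1 + X * u) 1 k
        rw [one_pow] at h2
        refine Dvd.dvd.trans ?_ h2
        exact ⟨u, by ring⟩
      have h3 : (ex (m + 2) - 1) ^ k = X ^ k + X ^ (k + 1) * h := by
        rw [h1, mul_pow]
        have h4 : (1 + X * u) ^ k = 1 + X * h := by rw [← hh]; ring
        rw [h4]
        ring
      have h5 : P (m + 2) (X ^ k) := by
        have h6 := (P.pw (m + 2) k).sub (ih' h)
        rw [h3, add_sub_cancel_right] at h6
        exact h6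
      have h7 := (h5.smul (g.coeff 0)).add (ih' g.divX)
      have e : C (g.coeff 0) * X ^ k + X ^ (k + 1) * g.divX = X ^ k * g := by
        conv_rhs => rw [← divX_mul_X_add g]
        ring
      rwa [e] at h7

theorem t_LOG : Pool.Agent.U707.PT.S_LOG := by
  intro D
  obtain ⟨L, w, hw⟩ := P.all D D 1 le_rfl (by omega) 1
  refine ⟨L, ?_⟩
  intro A _ _ N hN
  have h1 : aeval N (ex D) = IsNilpotent.exp N := by
    rw [IsNilpotent.exp_eq_sum hN]
    unfold ex
    rw [map_sum]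
    refine Finset.sum_congr rfl fun j _ => ?_
    rw [map_mul, aeval_C, map_pow, aeval_X, Algebra.smul_def]
  have h2 : aeval N (L.comp (ex D)) - N = 0 := by
    have h3 := congrArg (aeval N) hw
    rw [map_sub, map_mul, map_pow, map_mul, map_pow, aeval_X, map_one, pow_one, mul_one, hN,
      zero_mul] at h3
    exact h3
  rw [aeval_comp, h1] at h2
  exact sub_eq_zero.1 h2

end Pool.Agent.U61.PT
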